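import Mathlib

set_option autoImplicit false
open Real Set Filter Topology
open scoped NNReal

namespace Pool.Agent.Results.MP_3a3e96_an.DeathAndLocking

/-- right-hand side of the sinusoidal Winfree model -/
noncomputable def vf {N : ℕ} (ω : Fin N → ℝ) (κ : ℝ) (x : Fin N → ℝ) (i : Fin N) : ℝ :=
  ω i - κ / N * (∑ j, (1 + cos (x j))) * sin (x i)

/-- `Θ` is a solution of the Winfree model on `[0, ∞)` -/
def IsSol {N : ℕ} (ω : Fin N → ℝ) (κ : ℝ) (Θ : ℝ → Fin N → ℝ) : Prop :=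
  ∀ t ≥ 0, ∀ i, HasDerivWithinAt (fun s => Θ s i) (vf ω κ (Θ t) i) (Ici 0) t

/-- partial oscillator death -/
def Death {N : ℕ} (Θ : ℝ → Fin N → ℝ) (B : Finset (Fin N)) : Prop :=
  ∀ i ∈ B, ∃ M : ℝ, ∀ t ≥ 0, |Θ t i| ≤ M

/-- partial oscillator locking -/
def Locking {N : ℕ} (Θ : ℝ → Fin N → ℝ) (C : Finset (Fin N)) : Prop :=
  (∀ i ∈ C, ∀ j ∈ C, ∃ M : ℝ, ∀ t ≥ 0, |Θ t i - Θ t j| ≤ M) ∧
    ∀ i ∈ C, ¬ Tendsto (fun t => Θ t i / t) atTop (𝓝 0)

section general

variable {E : Type*} [NormedAddCommGroup E] [NormedSpace ℝ E] [CompleteSpace E]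

/-- (as in `Pool.Agent.Q259.Flow`) -/
theorem flow_Ioo {g : E → E} {K L : ℝ≥0} (hl : LipschitzWith K g) (hb : ∀ x, ‖g x‖ ≤ L)
    (x0 : E) (n : ℕ) : ∃ v : ℝ → E, v 0 = x0 ∧
      ∀ t ∈ Ioo (-((n : ℝ) + 1)) ((n : ℝ) + 1), HasDerivAt v (g (v t)) t := by
  have h0 : (0 : ℝ) ∈ Icc (-((n : ℝ) + 1)) ((n : ℝ) + 1) := by
    constructor <;> [linarith [n.cast_nonneg (α := ℝ)]; positivity]
  have hpl : IsPicardLindelof (fun _ : ℝ => g) (⟨0, h0⟩ : Icc (-((n : ℝ) + 1)) ((n : ℝ) + 1)) x0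
      (L * (n + 1)) 0 L K := by
    apply IsPicardLindelof.of_time_independent
    · intro x _
      exact hb x
    · exact hl.lipschitzOnWith
    · simp
  obtain ⟨v, hv0, hv⟩ := hpl.exists_eq_forall_mem_Icc_hasDerivWithinAt₀
  refine ⟨v, hv0, fun t ht => ?_⟩
  exact (hv t (Ioo_subset_Icc_self ht)).hasDerivAt (Icc_mem_nhds ht.1 ht.2)

theorem flow_global {g : E → E} {K L : ℝ≥0} (hl : LipschitzWith K g) (hb : ∀ x, ‖g x‖ ≤ L)
    (x0 : E) : ∃ v : ℝ → E, v 0 = x0 ∧ ∀ t, HasDerivAt v (g (v t)) t := by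
  choose v hv0 hv using flow_Ioo hl hb x0
  have huniq : ∀ m n : ℕ, m ≤ n → EqOn (v m) (v n) (Ioo (-((m : ℝ) + 1)) ((m : ℝ) + 1)) := by
    intro m n hmn
    have hmn' : (m : ℝ) ≤ n := by exact_mod_cast hmn
    refine ODE_solution_unique_of_mem_Ioo (v := fun _ => g) (s := fun _ => univ) (K := K)
      (t₀ := 0) (fun t _ => hl.lipschitzOnWith) ?_ (fun t ht => ⟨hv m t ht, mem_univ _⟩)
      (fun t ht => ⟨hv n t ⟨by linarith [ht.1], by linarith [ht.2]⟩, mem_univ _⟩) ?_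
    · constructor <;> [linarith [m.cast_nonneg (α := ℝ)]; positivity]
    · rw [hv0, hv0]
  refine ⟨fun t => v (⌈|t|⌉₊ + 1) t, by simpa using hv0 _, fun t => ?_⟩
  have hmem : t ∈ Ioo (-(((⌈|t|⌉₊ : ℕ) : ℝ) + 1)) (((⌈|t|⌉₊ : ℕ) : ℝ) + 1) := by
    have h1 : |t| ≤ ⌈|t|⌉₊ := Nat.le_ceil _
    constructor
    · linarith [neg_abs_le t]
    · linarith [le_abs_self t]
  have hkey : ∀ᶠ s in 𝓝 t, v (⌈|s|⌉₊ + 1) s = v (⌈|t|⌉₊ + 1) s := by
    filter_upwards [isOpen_Ioo.mem_nhds hmem] with s hs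
    have hsm : s ∈ Ioo (-(((⌈|s|⌉₊ : ℕ) : ℝ) + 1)) (((⌈|s|⌉₊ : ℕ) : ℝ) + 1) := by
      have h1 : |s| ≤ ⌈|s|⌉₊ := Nat.le_ceil _
      constructor
      · linarith [neg_abs_le s]
      · linarith [le_abs_self s]
    rcases le_total (⌈|s|⌉₊ + 1) (⌈|t|⌉₊ + 1) with h | h
    · refine huniq _ _ h ?_
      push_cast
      constructor <;> linarith [hsm.1, hsm.2]
    · refine (huniq _ _ h ?_).symm
      push_cast
      constructor <;> linarith [hs.1, hs.2]
  have hd : HasDerivAt (v (⌈|t|⌉₊ + 1)) (g (v (⌈|t|⌉₊ + 1) t)) t := by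
    apply hv
    push_cast
    constructor <;> linarith [hmem.1, hmem.2]
  exact hd.congr_of_eventuallyEq hkey

end general

theorem mean_bd {N : ℕ} (x : Fin N → ℝ) :
    0 ≤ (∑ j, (1 + cos (x j))) ∧ (∑ j, (1 + cos (x j))) ≤ 2 * N := by
  constructor
  · apply Finset.sum_nonneg
    intro j _
    linarith [neg_one_le_cos (x j)]
  · calc (∑ j, (1 + cos (x j))) ≤ ∑ j : Fin N, (2 : ℝ) := by
          apply Finset.sum_le_sum
          intro j _
          linarith [cos_le_one (x j)]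
      _ = 2 * N := by simp [mul_comm]

theorem exists_sol {N : ℕ} (hN : 0 < N) (ω : Fin N → ℝ) (κ : ℝ) (hκ : 0 ≤ κ) (x0 : Fin N → ℝ) :
    ∃ Θ, IsSol ω κ Θ ∧ Θ 0 = x0 := by
  have hNr : (0 : ℝ) < N := by exact_mod_cast hN
  have hlip : LipschitzWith (Real.toNNReal (3 * κ)) (vf ω κ) := by
    apply LipschitzWith.of_dist_le_mul
    intro x y
    rw [dist_pi_le_iff (by positivity)]
    intro i
    rw [Real.dist_eq, Real.coe_toNNReal _ (by positivity)]
    have hd : ∀ j, |x j - y j| ≤ dist x y := fun j => by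
      rw [← Real.dist_eq]; exact dist_le_pi_dist x y j
    have h1 : vf ω κ x i - vf ω κ y i =
        - (κ / N * ∑ j, ((1 + cos (x j)) * (sin (x i) - sin (y i)) +
          (cos (x j) - cos (y j)) * sin (y i))) := by
      unfold vf
      have : ∑ j, ((1 + cos (x j)) * (sin (x i) - sin (y i)) +
          (cos (x j) - cos (y j)) * sin (y i)) =
          (∑ j, (1 + cos (x j))) * sin (x i) - (∑ j, (1 + cos (y j))) * sin (y i) := by
        rw [Finset.sum_mul, Finset.sum_mul, ← Finset.sum_sub_distrib]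
        apply Finset.sum_congr rfl
        intro j _
        ring
      rw [this]
      ring
    rw [h1, abs_neg, abs_mul, abs_of_nonneg (by positivity : 0 ≤ κ / N)]
    have h2 : |∑ j, ((1 + cos (x j)) * (sin (x i) - sin (y i)) +
          (cos (x j) - cos (y j)) * sin (y i))| ≤ ∑ j : Fin N, 3 * dist x y := by
      refine (Finset.abs_sum_le_sum_abs _ _).trans (Finset.sum_le_sum fun j _ => ?_)
      refine (abs_add_le _ _).trans ?_
      rw [abs_mul, abs_mul]
      have a1 : |1 + cos (x j)| ≤ 2 := by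
        rw [abs_le]; constructor <;> linarith [neg_one_le_cos (x j), cos_le_one (x j)]
      have a2 := (abs_sin_sub_sin_le (x i) (y i)).trans (hd i)
      have a3 := (abs_cos_sub_cos_le (x j) (y j)).trans (hd j)
      have a4 := abs_sin_le_one (y i)
      have a5 : 0 ≤ dist x y := dist_nonneg
      have b1 := mul_le_mul a1 a2 (abs_nonneg _) (by norm_num)
      have b2 := mul_le_mul a3 a4 (abs_nonneg _) a5
      linarith
    calc κ / N * |∑ j, ((1 + cos (x j)) * (sin (x i) - sin (y i)) +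
          (cos (x j) - cos (y j)) * sin (y i))| ≤ κ / N * ∑ j : Fin N, 3 * dist x y := by gcongr
      _ = 3 * κ * dist x y := by
          rw [Finset.sum_const, Finset.card_univ, Fintype.card_fin, nsmul_eq_mul]
          field_simp
  have hb : ∀ x, ‖vf ω κ x‖ ≤ ((Real.toNNReal (‖ω‖ + 2 * κ)) : ℝ≥0) := by
    intro x
    rw [Real.coe_toNNReal _ (by positivity)]
    rw [pi_norm_le_iff_of_nonneg (by positivity)]
    intro i
    unfold vf
    refine (norm_sub_le _ _).trans ?_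
    have h1 : ‖ω i‖ ≤ ‖ω‖ := norm_le_pi_norm ω i
    have h2 : ‖κ / N * (∑ j, (1 + cos (x j))) * sin (x i)‖ ≤ 2 * κ := by
      rw [norm_mul, Real.norm_eq_abs, Real.norm_eq_abs]
      obtain ⟨m1, m2⟩ := mean_bd x
      have a1 : |κ / N * (∑ j, (1 + cos (x j)))| ≤ 2 * κ := by
        rw [abs_of_nonneg (by positivity)]
        calc κ / N * (∑ j, (1 + cos (x j))) ≤ κ / N * (2 * N) := by gcongr
          _ = 2 * κ := by field_simp
      have a2 := abs_sin_le_one (x i)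
      calc |κ / N * (∑ j, (1 + cos (x j)))| * |sin (x i)| ≤ (2 * κ) * 1 := by
            apply mul_le_mul a1 a2 (abs_nonneg _) (by positivity)
        _ = 2 * κ := by ring
    linarith
  obtain ⟨Θ, h0, h⟩ := flow_global hlip hb x0
  refine ⟨Θ, ?_, h0⟩
  intro t _ i
  have := h t
  rw [hasDerivAt_pi] at this
  exact (this i).hasDerivWithinAt

theorem left_le (u : ℝ → ℝ) (c t : ℝ) (hc : ContinuousOn u (Ici 0)) (ht : 0 < t)
    (h : ∀ s ∈ Ico 0 t, u s < c) : u t ≤ c := by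
  have h1 : Tendsto u (𝓝[<] t) (𝓝 (u t)) :=
    (hc.continuousAt (Ici_mem_nhds ht)).tendsto.mono_left nhdsWithin_le_nhds
  refine le_of_tendsto h1 ?_
  filter_upwards [Ioo_mem_nhdsLT ht] with s hs
  exact (h s ⟨hs.1.le, hs.2⟩).le

/-- first exit -/
theorem first_exit {ι : Type*} [Finite ι] (u : ι → ℝ → ℝ) (c : ℝ)
    (hc : ∀ i, ContinuousOn (u i) (Ici 0)) (h0 : ∀ i, u i 0 < c)
    (hd : ∀ t > 0, (∀ s ∈ Ico 0 t, ∀ j, u j s < c) → ∀ i, u i t = c → False) :
    ∀ t ≥ 0, ∀ i, u i t < c := by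
  by_contra hcon
  push Not at hcon
  obtain ⟨t₁, ht₁, i₁, hi₁⟩ := hcon
  set A : Set ℝ := ⋃ i, {t | t ∈ Ici 0 ∧ c ≤ u i t} with hA
  have hAc : IsClosed A := by
    apply isClosed_iUnion_of_finite
    intro i
    exact (hc i).preimage_isClosed_of_isClosed isClosed_Ici isClosed_Ici
  have hAb : BddBelow A := ⟨0, by
    intro x hx
    obtain ⟨i, hx⟩ := mem_iUnion.1 hx
    exact hx.1⟩
  have hAn : A.Nonempty := ⟨t₁, mem_iUnion.2 ⟨i₁, ht₁, hi₁⟩⟩
  have hT := hAc.csInf_mem hAn hAb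
  set T := sInf A with hTd
  obtain ⟨i, hTi⟩ := mem_iUnion.1 hT
  have hT0 : 0 < T := by
    rcases (show (0:ℝ) ≤ T from hTi.1).eq_or_lt with h | h
    · have := hTi.2
      rw [← h] at this
      exact absurd (h0 i) (not_lt.2 this)
    · exact h
  have hlt : ∀ s ∈ Ico 0 T, ∀ j, u j s < c := by
    intro s hs j
    by_contra hcon
    push Not at hcon
    have : T ≤ s := csInf_le hAb (mem_iUnion.2 ⟨j, hs.1, hcon⟩)
    exact absurd hs.2 (not_lt.2 this)
  have hle := left_le (u i) c T (hc i) hT0 (fun s hs => hlt s hs i)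
  exact hd T hT0 hlt i (le_antisymm hle hTi.2)

/-- a function with negative derivative is larger on the left -/
theorem no_touch (u : ℝ → ℝ) (d c t : ℝ) (ht : 0 < t) (hd : HasDerivAt u d t) (hneg : d < 0)
    (hut : u t = c) (h : ∀ s ∈ Ico 0 t, u s < c) : False := by
  have h1 := (hasDerivAt_iff_tendsto_slope.1 hd).mono_left
    (nhdsWithin_mono t (fun x (hx : x < t) => ne_of_lt hx) : 𝓝[<] t ≤ 𝓝[≠] t)
  have h2 : ∀ᶠ s in 𝓝[<] t, slope u t s < 0 := h1.eventually (gt_mem_nhds hneg)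
  obtain ⟨s, hs1, hs2⟩ := (h2.and (Ioo_mem_nhdsLT ht)).exists
  rw [slope_def_field] at hs1
  have h3 := h s ⟨hs2.1.le, hs2.2⟩
  have h4 : 0 ≤ (u s - u t) / (s - t) := by
    apply div_nonneg_of_nonpos
    · linarith
    · linarith [hs2.2]
  linarith

section sol

variable {N : ℕ} {ω : Fin N → ℝ} {κ : ℝ} {Θ : ℝ → Fin N → ℝ}

theorem sol_cont (h : IsSol ω κ Θ) (i : Fin N) : ContinuousOn (fun s => Θ s i) (Ici 0) :=
  fun t ht => (h t ht i).continuousWithinAt

theorem sol_deriv (h : IsSol ω κ Θ) (i : Fin N) (t : ℝ) (ht : 0 < t) :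
    HasDerivAt (fun s => Θ s i) (vf ω κ (Θ t) i) t :=
  (h t ht.le i).hasDerivAt (Ici_mem_nhds ht)

theorem vf_close (hN : 0 < N) (hκ : 0 ≤ κ) (x : Fin N → ℝ) (i : Fin N) :
    |vf ω κ x i - ω i| ≤ 2 * κ := by
  have hNr : (0 : ℝ) < N := by exact_mod_cast hN
  have : vf ω κ x i - ω i = - (κ / N * (∑ j, (1 + cos (x j))) * sin (x i)) := by
    unfold vf; ring
  rw [this, abs_neg, abs_mul]
  obtain ⟨m1, m2⟩ := mean_bd x
  have a1 : |κ / N * (∑ j, (1 + cos (x j)))| ≤ 2 * κ := by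
    rw [abs_of_nonneg (by positivity)]
    calc κ / N * (∑ j, (1 + cos (x j))) ≤ κ / N * (2 * N) := by gcongr
      _ = 2 * κ := by field_simp
  have a2 := abs_sin_le_one (x i)
  calc |κ / N * (∑ j, (1 + cos (x j)))| * |sin (x i)| ≤ (2 * κ) * 1 := by
        apply mul_le_mul a1 a2 (abs_nonneg _) (by positivity)
    _ = 2 * κ := by ring

/-- the oscillators of `B` stay in `(-π/2, π/2)` -/
theorem death_bound (hN : 0 < N) (hκ : 0 < κ) (h : IsSol ω κ Θ) (h0 : Θ 0 = 0)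
    (B : Finset (Fin N)) {ρ₁ γ : ℝ} (hB : ρ₁ * N ≤ B.card) (hγ : γ < κ * ρ₁)
    (hω : ∀ i ∈ B, ω i ∈ Icc (-γ) γ) :
    ∀ t ≥ 0, ∀ i ∈ B, |Θ t i| < π / 2 := by
  have hNr : (0 : ℝ) < N := by exact_mod_cast hN
  set u : B × Bool → ℝ → ℝ := fun p t => if p.2 then Θ t p.1 else - Θ t p.1 with hu
  have key : ∀ t ≥ 0, ∀ p, u p t < π / 2 := by
    apply first_exit
    · intro p
      simp only [hu]
      by_cases hp : p.2
      · simp only [hp, if_true]; exact sol_cont h p.1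
      · simp only [hp]; exact (sol_cont h p.1).neg
    · intro p
      simp only [hu, h0]
      have := pi_pos
      split_ifs
      · simp; positivity
      · simp; positivity
    · intro t ht hlt p hp
      -- all the phases of `B` are in `[-π/2, π/2]` at the time `t`
      have hle : ∀ j ∈ B, Θ t j ≤ π / 2 ∧ -(π / 2) ≤ Θ t j := by
        intro j hj
        constructor
        · exact left_le (fun s => Θ s j) _ t (sol_cont h j) ht (fun s hs => by
            have := hlt s hs (⟨j, hj⟩, true)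
            simpa [hu] using this)
        · have := left_le (fun s => - Θ s j) (π / 2) t (sol_cont h j).neg ht (fun s hs => by
            have := hlt s hs (⟨j, hj⟩, false)
            simpa [hu] using this)
          linarith
      have hcos : ∀ j ∈ B, 0 ≤ cos (Θ t j) := fun j hj =>
        cos_nonneg_of_mem_Icc ⟨(hle j hj).2, (hle j hj).1⟩
      have hsum : ρ₁ * N ≤ ∑ j, (1 + cos (Θ t j)) := by
        calc ρ₁ * N ≤ (B.card : ℝ) := hB
          _ = ∑ j ∈ B, (1 : ℝ) := by simp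
          _ ≤ ∑ j ∈ B, (1 + cos (Θ t j)) := Finset.sum_le_sum fun j hj => by
              linarith [hcos j hj]
          _ ≤ ∑ j, (1 + cos (Θ t j)) := by
              apply Finset.sum_le_sum_of_subset_of_nonneg (Finset.subset_univ _)
              intro j _ _
              linarith [neg_one_le_cos (Θ t j)]
      have hR : κ * ρ₁ ≤ κ / N * ∑ j, (1 + cos (Θ t j)) := by
        calc κ * ρ₁ = κ / N * (ρ₁ * N) := by field_simp
          _ ≤ _ := by gcongr
      obtain ⟨⟨i, hi⟩, b⟩ := p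
      have hωi := hω i hi
      have hder := sol_deriv h i t ht
      cases b with
      | true =>
        have hti : Θ t i = π / 2 := by simpa [hu] using hp
        refine no_touch (fun s => Θ s i) _ (π / 2) t ht hder ?_ hti (fun s hs => by
          have := hlt s hs (⟨i, hi⟩, true)
          simpa [hu] using this)
        unfold vf
        rw [hti, sin_pi_div_two]
        linarith [hωi.2]
      | false =>
        have hti : - Θ t i = π / 2 := by simpa [hu] using hp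
        have hti' : Θ t i = - (π / 2) := by linarith
        refine no_touch (fun s => - Θ s i) _ (π / 2) t ht hder.neg ?_ hti (fun s hs => by
          have := hlt s hs (⟨i, hi⟩, false)
          simpa [hu] using this)
        unfold vf
        rw [hti', sin_neg, sin_pi_div_two]
        linarith [hωi.1]
  intro t ht i hi
  rw [abs_lt]
  have h1 := key t ht (⟨i, hi⟩, true)
  have h2 := key t ht (⟨i, hi⟩, false)
  simp only [hu, if_true] at h1
  simp [hu] at h2
  constructor <;> linarith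

/-- pointwise estimates for the corrected derivative -/
theorem est_C (x m v m' e : ℝ) (hm : |m' - 1| ≤ e) (hv : |v - 1| ≤ e) (hx : |x - m| ≤ 1) :
    -((1 + cos x) * cos m) + (cos m * m' + 1 / 4 * (cos (x + m) * (v + m'))) ≤
      3 / 2 * e - 1 / 4 := by
  have h1 : cos x * cos m = (cos (x - m) + cos (x + m)) / 2 := by
    rw [cos_sub, cos_add]; ring
  have h2 : 1 / 2 ≤ cos (x - m) := by
    have := one_sub_sq_div_two_le_cos (x := x - m)
    have h3 : (x - m) ^ 2 ≤ 1 := by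
      rw [← sq_abs]; nlinarith [abs_nonneg (x - m)]
    linarith
  have e1 : -((1 + cos x) * cos m) + (cos m * m' + 1 / 4 * (cos (x + m) * (v + m'))) =
      cos m * (m' - 1) + 1 / 4 * (cos (x + m) * (v - 1)) + 1 / 4 * (cos (x + m) * (m' - 1)) -
        1 / 2 * cos (x - m) := by
    linear_combination -h1
  rw [e1]
  have b1 : cos m * (m' - 1) ≤ e := by
    calc cos m * (m' - 1) ≤ |cos m * (m' - 1)| := le_abs_self _
      _ = |cos m| * |m' - 1| := abs_mul _ _
      _ ≤ 1 * e := mul_le_mul (abs_cos_le_one m) hm (abs_nonneg _) (by norm_num)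
      _ = e := one_mul e
  have b2 : cos (x + m) * (v - 1) ≤ e := by
    calc cos (x + m) * (v - 1) ≤ |cos (x + m) * (v - 1)| := le_abs_self _
      _ = |cos (x + m)| * |v - 1| := abs_mul _ _
      _ ≤ 1 * e := mul_le_mul (abs_cos_le_one _) hv (abs_nonneg _) (by norm_num)
      _ = e := one_mul e
  have b3 : cos (x + m) * (m' - 1) ≤ e := by
    calc cos (x + m) * (m' - 1) ≤ |cos (x + m) * (m' - 1)| := le_abs_self _
      _ = |cos (x + m)| * |m' - 1| := abs_mul _ _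
      _ ≤ 1 * e := mul_le_mul (abs_cos_le_one _) hm (abs_nonneg _) (by norm_num)
      _ = e := one_mul e
  linarith

theorem est_B (x m v m' e : ℝ) (hm : |m' - 1| ≤ e) (hv : |v| ≤ e) :
    -((1 + cos x) * cos m) + (-sin x * v * sin m + (1 + cos x) * (cos m * m')) ≤ 3 * e := by
  have e1 : -((1 + cos x) * cos m) + (-sin x * v * sin m + (1 + cos x) * (cos m * m')) =
      (1 + cos x) * cos m * (m' - 1) + (-(sin x * sin m)) * v := by ring
  rw [e1]
  have he : 0 ≤ e := (abs_nonneg _).trans hm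
  have a1 : |(1 + cos x) * cos m| ≤ 2 := by
    rw [abs_mul]
    have : |1 + cos x| ≤ 2 := by
      rw [abs_le]; constructor <;> linarith [neg_one_le_cos x, cos_le_one x]
    nlinarith [abs_cos_le_one m, abs_nonneg (cos m), abs_nonneg (1 + cos x)]
  have a2 : |-(sin x * sin m)| ≤ 1 := by
    rw [abs_neg, abs_mul]
    nlinarith [abs_sin_le_one m, abs_nonneg (sin m), abs_nonneg (sin x), abs_sin_le_one x]
  have b1 : (1 + cos x) * cos m * (m' - 1) ≤ 2 * e := by
    calc (1 + cos x) * cos m * (m' - 1) ≤ |(1 + cos x) * cos m * (m' - 1)| := le_abs_self _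
      _ = |(1 + cos x) * cos m| * |m' - 1| := abs_mul _ _
      _ ≤ 2 * e := mul_le_mul a1 hm (abs_nonneg _) (by norm_num)
  have b2 : -(sin x * sin m) * v ≤ 1 * e := by
    calc -(sin x * sin m) * v ≤ |-(sin x * sin m) * v| := le_abs_self _
      _ = |-(sin x * sin m)| * |v| := abs_mul _ _
      _ ≤ 1 * e := mul_le_mul a2 hv (abs_nonneg _) (by norm_num)
  linarith

theorem est_O (x m : ℝ) : -((1 + cos x) * cos m) ≤ 2 := by
  have a1 : |(1 + cos x) * cos m| ≤ 2 := by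
    rw [abs_mul]
    have : |1 + cos x| ≤ 2 := by
      rw [abs_le]; constructor <;> linarith [neg_one_le_cos x, cos_le_one x]
    nlinarith [abs_cos_le_one m, abs_nonneg (cos m), abs_nonneg (1 + cos x)]
  linarith [neg_abs_le ((1 + cos x) * cos m)]

/-- the terms of the correction -/
noncomputable def gj (Θ : ℝ → Fin N → ℝ) (B C : Finset (Fin N)) (i k j : Fin N) (t : ℝ) : ℝ :=
  if j ∈ C then sin ((Θ t i + Θ t k) / 2) + 1 / 4 * sin (Θ t j + (Θ t i + Θ t k) / 2)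
  else if j ∈ B then (1 + cos (Θ t j)) * sin ((Θ t i + Θ t k) / 2) else 0

/-- their derivatives -/
noncomputable def gj' (ω : Fin N → ℝ) (κ : ℝ) (Θ : ℝ → Fin N → ℝ) (B C : Finset (Fin N))
    (i k j : Fin N) (t : ℝ) : ℝ :=
  if j ∈ C then cos ((Θ t i + Θ t k) / 2) * ((vf ω κ (Θ t) i + vf ω κ (Θ t) k) / 2) +
    1 / 4 * (cos (Θ t j + (Θ t i + Θ t k) / 2) *
      (vf ω κ (Θ t) j + (vf ω κ (Θ t) i + vf ω κ (Θ t) k) / 2))
  else if j ∈ B then -sin (Θ t j) * vf ω κ (Θ t) j * sin ((Θ t i + Θ t k) / 2) +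
    (1 + cos (Θ t j)) * (cos ((Θ t i + Θ t k) / 2) * ((vf ω κ (Θ t) i + vf ω κ (Θ t) k) / 2))
  else 0

theorem gj_deriv (h : IsSol ω κ Θ) (B C : Finset (Fin N)) (i k j : Fin N) (t : ℝ) (ht : 0 < t) :
    HasDerivAt (gj Θ B C i k j) (gj' ω κ Θ B C i k j t) t := by
  have hi := sol_deriv h i t ht
  have hk := sol_deriv h k t ht
  have hj := sol_deriv h j t ht
  have hm : HasDerivAt (fun s => (Θ s i + Θ s k) / 2)
      ((vf ω κ (Θ t) i + vf ω κ (Θ t) k) / 2) t := (hi.add hk).div_const 2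
  unfold gj gj'
  by_cases hC : j ∈ C
  · simp only [if_pos hC]
    exact hm.sin.add ((hj.add hm).sin.const_mul _)
  · simp only [if_neg hC]
    by_cases hB : j ∈ B
    · simp only [if_pos hB]
      have := (hj.cos.const_add 1).mul hm.sin
      exact this
    · simp only [if_neg hB]
      exact hasDerivAt_const t 0

theorem gj_bound (Θ : ℝ → Fin N → ℝ) (B C : Finset (Fin N)) (i k j : Fin N) (t : ℝ) :
    |gj Θ B C i k j t| ≤ 2 := by
  unfold gj
  split_ifs
  · have a := sin_le_one ((Θ t i + Θ t k) / 2)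
    have b := neg_one_le_sin ((Θ t i + Θ t k) / 2)
    have c := sin_le_one (Θ t j + (Θ t i + Θ t k) / 2)
    have d := neg_one_le_sin (Θ t j + (Θ t i + Θ t k) / 2)
    rw [abs_le]; constructor <;> linarith
  · rw [abs_mul]
    have : |1 + cos (Θ t j)| ≤ 2 := by
      rw [abs_le]; constructor <;> linarith [neg_one_le_cos (Θ t j), cos_le_one (Θ t j)]
    nlinarith [abs_sin_le_one ((Θ t i + Θ t k) / 2), abs_nonneg (sin ((Θ t i + Θ t k) / 2)),
      abs_nonneg (1 + cos (Θ t j))]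
  · simp

/-- the sum of the pointwise estimates -/
theorem sum_est (hN : 0 < N) (hκ : 0 < κ) {ρ₁ ρ₂ γ : ℝ} (hρ₂ : 0 < ρ₂) (hγ : 0 < γ)
    (hrest : 16 * (1 - ρ₁ - ρ₂) ≤ ρ₂) (hκ2 : 96 * κ ≤ ρ₂) (hγ2 : 160 * γ ≤ κ * ρ₂)
    (hρ : ρ₂ ≤ 1)
    (B C : Finset (Fin N)) (hBC : Disjoint B C)
    (hB : ρ₁ * N ≤ B.card) (hC : ρ₂ * N ≤ C.card)
    (hωB : ∀ i ∈ B, ω i ∈ Icc (-γ) γ) (hωC : ∀ i ∈ C, ω i ∈ Icc (1 - γ) (1 + γ))
    {i k : Fin N} (hi : i ∈ C) (hk : k ∈ C) (t : ℝ)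
    (hclose : ∀ a ∈ C, ∀ b ∈ C, Θ t a - Θ t b < 1) :
    5 * γ + κ / N * ∑ j, (-((1 + cos (Θ t j)) * cos ((Θ t i + Θ t k) / 2)) +
      gj' ω κ Θ B C i k j t) ≤ 0 := by
  have hNr : (0 : ℝ) < N := by exact_mod_cast hN
  set e := γ + 2 * κ with he
  have hvC : ∀ j ∈ C, |vf ω κ (Θ t) j - 1| ≤ e := by
    intro j hj
    have h1 := vf_close (ω := ω) hN hκ.le (Θ t) j
    have h2 := hωC j hj
    rw [abs_le] at h1 ⊢
    constructor <;> linarith [h1.1, h1.2, h2.1, h2.2]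
  have hvB : ∀ j ∈ B, |vf ω κ (Θ t) j| ≤ e := by
    intro j hj
    have h1 := vf_close (ω := ω) hN hκ.le (Θ t) j
    have h2 := hωB j hj
    rw [abs_le] at h1 ⊢
    constructor <;> linarith [h1.1, h1.2, h2.1, h2.2]
  have hm' : |(vf ω κ (Θ t) i + vf ω κ (Θ t) k) / 2 - 1| ≤ e := by
    have h1 := hvC i hi
    have h2 := hvC k hk
    rw [abs_le] at h1 h2 ⊢
    constructor <;> linarith [h1.1, h1.2, h2.1, h2.2]
  have hterm : ∀ j, -((1 + cos (Θ t j)) * cos ((Θ t i + Θ t k) / 2)) + gj' ω κ Θ B C i k j t ≤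
      (if j ∈ C then 3 / 2 * e - 1 / 4 else if j ∈ B then 3 * e else 2) := by
    intro j
    unfold gj'
    by_cases hjC : j ∈ C
    · simp only [if_pos hjC]
      apply est_C _ _ _ _ _ hm' (hvC j hjC)
      have a1 := hclose j hjC i hi
      have a2 := hclose j hjC k hk
      have a3 := hclose i hi j hjC
      have a4 := hclose k hk j hjC
      rw [abs_le]; constructor <;> linarith
    · simp only [if_neg hjC]
      by_cases hjB : j ∈ B
      · simp only [if_pos hjB]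
        exact est_B _ _ _ _ _ hm' (hvB j hjB)
      · simp only [if_neg hjB]
        linarith [est_O (Θ t j) ((Θ t i + Θ t k) / 2)]
  have hsum : ∑ j, (-((1 + cos (Θ t j)) * cos ((Θ t i + Θ t k) / 2)) + gj' ω κ Θ B C i k j t) ≤
      C.card * (3 / 2 * e - 1 / 4) + B.card * (3 * e) + (N - C.card - B.card) * 2 := by
    refine (Finset.sum_le_sum fun j _ => hterm j).trans (le_of_eq ?_)
    have h1 : ∀ j, (if j ∈ C then 3 / 2 * e - 1 / 4 else if j ∈ B then 3 * e else 2) =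
        (if j ∈ C then (3 / 2 * e - 1 / 4 - 2) else 0) + (if j ∈ B then (3 * e - 2) else 0) + 2 := by
      intro j
      by_cases hjC : j ∈ C
      · have hjB : j ∉ B := fun hj => Finset.disjoint_left.1 hBC hj hjC
        rw [if_pos hjC, if_pos hjC, if_neg hjB]; ring
      · rw [if_neg hjC, if_neg hjC]
        by_cases hjB : j ∈ B
        · rw [if_pos hjB, if_pos hjB]; ring
        · rw [if_neg hjB, if_neg hjB]; ring
    simp_rw [h1]
    rw [Finset.sum_add_distrib, Finset.sum_add_distrib, ← Finset.sum_filter, ← Finset.sum_filter]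
    simp only [Finset.filter_univ_mem, Finset.sum_const, nsmul_eq_mul, Finset.card_univ,
      Fintype.card_fin]
    ring
  have hcard : (C.card : ℝ) + B.card ≤ N := by
    have h1 : (B ∪ C).card ≤ N := by
      simpa using Finset.card_le_univ (B ∪ C)
    rw [Finset.card_union_of_disjoint hBC] at h1
    have h2 : ((B.card + C.card : ℕ) : ℝ) ≤ N := by exact_mod_cast h1
    push_cast at h2
    linarith
  set c : ℝ := (C.card : ℝ) with hc
  set b : ℝ := (B.card : ℝ) with hb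
  have hc0 : 0 ≤ c := Nat.cast_nonneg _
  have hb0 : 0 ≤ b := Nat.cast_nonneg _
  have he0 : 0 ≤ e := by positivity
  have hfin : c * (3 / 2 * e - 1 / 4) + b * (3 * e) + (N - c - b) * 2 ≤
      N * (3 * e - ρ₂ / 4 + ρ₂ / 8) := by
    have e1 : c * (3 / 2 * e) + b * (3 * e) ≤ N * (3 * e) := by nlinarith
    have e2 : (N - c - b) * 2 ≤ N * (ρ₂ / 8) := by
      have : (N - c - b) ≤ N * (1 - ρ₁ - ρ₂) := by linarith
      nlinarith
    nlinarith
  have hk0 : 0 ≤ κ / N := by positivity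
  calc 5 * γ + κ / N * ∑ j, (-((1 + cos (Θ t j)) * cos ((Θ t i + Θ t k) / 2)) +
        gj' ω κ Θ B C i k j t)
      ≤ 5 * γ + κ / N * (N * (3 * e - ρ₂ / 4 + ρ₂ / 8)) := by
        have := mul_le_mul_of_nonneg_left (hsum.trans hfin) hk0
        linarith
    _ = 5 * γ + κ * (3 * e - ρ₂ / 4 + ρ₂ / 8) := by
        congr 1; field_simp
    _ ≤ 0 := by
        have h3 : 3 * e ≤ ρ₂ / 32 + ρ₂ / 16 := by
          have : κ ≤ 1 := by linarith
          have : κ * ρ₂ ≤ ρ₂ := by nlinarith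
          rw [he]; linarith
        nlinarith

theorem log_est : log 2 ≤ (log (sin (1 / 4)) - log (cos (1 / 4))) -
    (log (sin (1 / 8)) - log (cos (1 / 8))) := by
  have p := pi_gt_three
  have s8 : 0 < sin (1 / 8) := sin_pos_of_pos_of_lt_pi (by norm_num) (by linarith)
  have c8 : 0 < cos (1 / 8) := cos_pos_of_mem_Ioo ⟨by linarith, by linarith⟩
  have s4 : 0 < sin (1 / 4) := sin_pos_of_pos_of_lt_pi (by norm_num) (by linarith)
  have c4 : 0 < cos (1 / 4) := cos_pos_of_mem_Ioo ⟨by linarith, by linarith⟩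
  have e1 : sin (1 / 4) = 2 * sin (1 / 8) * cos (1 / 8) := by
    rw [← sin_two_mul]; norm_num
  have e2 : cos (1 / 4) ≤ cos (1 / 8) ^ 2 := by
    have : cos (1 / 4) = 2 * cos (1 / 8) ^ 2 - 1 := by
      rw [← cos_two_mul]; norm_num
    have h2 := cos_le_one (1 / 8)
    nlinarith
  have e3 : log (sin (1 / 4)) = log 2 + log (sin (1 / 8)) + log (cos (1 / 8)) := by
    rw [e1, log_mul (by positivity) c8.ne', log_mul (by norm_num) s8.ne']
  have e4 : log (cos (1 / 4)) ≤ 2 * log (cos (1 / 8)) := by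
    have := log_le_log c4 e2
    rwa [log_pow, Nat.cast_ofNat] at this
  linarith

/-- two phases of `C` cannot reach the distance `1` for the first time -/
theorem no_exit (hN : 0 < N) (hκ : 0 < κ) {ρ₁ ρ₂ γ : ℝ} (hρ₂ : 0 < ρ₂) (hγ : 0 < γ)
    (hrest : 16 * (1 - ρ₁ - ρ₂) ≤ ρ₂) (hκ2 : 96 * κ ≤ ρ₂) (hγ2 : 160 * γ ≤ κ * ρ₂)
    (hρ : ρ₂ ≤ 1) (h : IsSol ω κ Θ) (h0 : Θ 0 = 0)
    (B C : Finset (Fin N)) (hBC : Disjoint B C)
    (hB : ρ₁ * N ≤ B.card) (hC : ρ₂ * N ≤ C.card)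
    (hωB : ∀ i ∈ B, ω i ∈ Icc (-γ) γ) (hωC : ∀ i ∈ C, ω i ∈ Icc (1 - γ) (1 + γ))
    {i k : Fin N} (hi : i ∈ C) (hk : k ∈ C) (T : ℝ) (hT : 0 < T)
    (hclose : ∀ s ∈ Ico 0 T, ∀ a ∈ C, ∀ b ∈ C, Θ s a - Θ s b < 1)
    (hTe : Θ T i - Θ T k = 1) : False := by
  have hNr : (0 : ℝ) < N := by exact_mod_cast hN
  set δ : ℝ → ℝ := fun s => Θ s i - Θ s k with hδ
  have hδc : ContinuousOn δ (Ici 0) := (sol_cont h i).sub (sol_cont h k)
  set S : Set ℝ := {s | s ∈ Icc 0 T ∧ δ s ≤ 1 / 2} with hS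
  have hδc' : ContinuousOn δ (Icc 0 T) := hδc.mono (fun x hx => hx.1)
  have hScl : IsClosed S := hδc'.preimage_isClosed_of_isClosed isClosed_Icc isClosed_Iic
  have hSb : BddAbove S := ⟨T, fun x hx => hx.1.2⟩
  have hSn : S.Nonempty := ⟨0, ⟨le_rfl, hT.le⟩, by simp [hδ, h0]⟩
  have hT0S := hScl.csSup_mem hSn hSb
  set T0 := sSup S with hT0
  have hT0le : T0 ≤ T := hT0S.1.2
  have hT0nn : 0 ≤ T0 := hT0S.1.1
  have hT0lt : T0 < T := by
    rcases hT0le.eq_or_lt with hh | hh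
    · have := hT0S.2
      rw [hh] at this
      simp only [hδ, hTe] at this
      norm_num at this
    · exact hh
  have hgt : ∀ s ∈ Ioc T0 T, 1 / 2 < δ s := by
    intro s hs
    by_contra hcon
    push Not at hcon
    have : s ≤ T0 := le_csSup hSb ⟨⟨hT0nn.trans hs.1.le, hs.2⟩, hcon⟩
    linarith [hs.1]
  have hT0eq : δ T0 = 1 / 2 := by
    apply le_antisymm hT0S.2
    have ht : Tendsto δ (𝓝[>] T0) (𝓝 (δ T0)) := by
      have := (hδc T0 hT0nn).mono (fun x (hx : T0 < x) => hT0nn.trans hx.le : Ioi T0 ⊆ Ici 0)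
      exact this
    refine ge_of_tendsto ht ?_
    filter_upwards [Ioc_mem_nhdsGT hT0lt] with s hs
    exact (hgt s hs).le
  have hge : ∀ s ∈ Icc T0 T, 1 / 2 ≤ δ s := by
    intro s hs
    rcases hs.1.eq_or_lt with hh | hh
    · rw [← hh, hT0eq]
    · exact (hgt s ⟨hh, hs.2⟩).le
  have hle1 : ∀ s ∈ Icc T0 T, δ s ≤ 1 := by
    intro s hs
    rcases hs.2.eq_or_lt with hh | hh
    · rw [hh]; exact hTe.le
    · exact (hclose s ⟨hT0nn.trans hs.1, hh⟩ i hi k hk).le
  have p := pi_gt_three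
  have hsin : ∀ s ∈ Icc T0 T, 0 < sin (δ s / 4) := fun s hs =>
    sin_pos_of_pos_of_lt_pi (by linarith [hge s hs]) (by linarith [hle1 s hs])
  have hcos : ∀ s ∈ Icc T0 T, 0 < cos (δ s / 4) := fun s hs =>
    cos_pos_of_mem_Ioo ⟨by linarith [hge s hs], by linarith [hle1 s hs]⟩
  set V : ℝ → ℝ := fun s => log (sin (δ s / 4)) - log (cos (δ s / 4)) +
    κ / N * ∑ j, gj Θ B C i k j s with hV
  have hcont : ∀ j, ContinuousOn (fun s => Θ s j) (Icc T0 T) := fun j =>
    (sol_cont h j).mono (fun x hx => hT0nn.trans hx.1)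
  have hgjc : ∀ j, ContinuousOn (gj Θ B C i k j) (Icc T0 T) := by
    intro j
    have ci := hcont i
    have ck := hcont k
    have cj := hcont j
    unfold gj
    by_cases hC : j ∈ C
    · simp only [if_pos hC]; fun_prop
    · simp only [if_neg hC]
      by_cases hB : j ∈ B
      · simp only [if_pos hB]; fun_prop
      · simp only [if_neg hB]; fun_prop
  have hδc2 : ContinuousOn δ (Icc T0 T) := (hcont i).sub (hcont k)
  have hVc : ContinuousOn V (Icc T0 T) := by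
    apply ContinuousOn.add
    · apply ContinuousOn.sub
      · exact ContinuousOn.log (by fun_prop) (fun s hs => (hsin s hs).ne')
      · exact ContinuousOn.log (by fun_prop) (fun s hs => (hcos s hs).ne')
    · apply ContinuousOn.const_mul
      apply continuousOn_finsetSum
      intro j _
      exact hgjc j
  have hVd : ∀ s ∈ Ioo T0 T, ∃ d ≤ 0, HasDerivAt V d s := by
    intro s hs
    have hs' : s ∈ Icc T0 T := Ioo_subset_Icc_self hs
    have hs0 : 0 < s := lt_of_le_of_lt hT0nn hs.1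
    have d1 : HasDerivAt (fun s => δ s / 4) ((vf ω κ (Θ s) i - vf ω κ (Θ s) k) / 4) s :=
      ((sol_deriv h i s hs0).sub (sol_deriv h k s hs0)).div_const 4
    have d2 := d1.sin.log (hsin s hs').ne'
    have d3 := d1.cos.log (hcos s hs').ne'
    have d4 : HasDerivAt (fun s => ∑ j, gj Θ B C i k j s) (∑ j, gj' ω κ Θ B C i k j s) s :=
      HasDerivAt.fun_sum fun j _ => gj_deriv h B C i k j s hs0
    have d5 := (d2.sub d3).add (d4.const_mul (κ / N))
    refine ⟨_, ?_, d5⟩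
    have hδs : δ s / 4 = (Θ s i - Θ s k) / 4 := rfl
    set D := vf ω κ (Θ s) i - vf ω κ (Θ s) k with hD
    have hs2 : sin (δ s / 2) = 2 * sin (δ s / 4) * cos (δ s / 4) := by
      rw [← sin_two_mul]; congr 1; ring
    have hs4 := hsin s hs'
    have hc4 := hcos s hs'
    have e1 : cos (δ s / 4) * (D / 4) / sin (δ s / 4) -
        -sin (δ s / 4) * (D / 4) / cos (δ s / 4) = D / (2 * sin (δ s / 2)) := by
      rw [hs2]
      have := sin_sq_add_cos_sq (δ s / 4)
      field_simp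
      linear_combination 4 * D * this
    rw [e1]
    have e2 : D = (ω i - ω k) - κ / N * (∑ j, (1 + cos (Θ s j))) *
        (2 * sin (δ s / 2) * cos ((Θ s i + Θ s k) / 2)) := by
      have : 2 * sin (δ s / 2) * cos ((Θ s i + Θ s k) / 2) = sin (Θ s i) - sin (Θ s k) := by
        rw [sin_sub_sin]
      rw [this, hD]
      unfold vf
      ring
    have hx1 := hge s hs'
    have hx2 := hle1 s hs'
    have hsp : 1 / 5 ≤ sin (δ s / 2) := by
      have := sin_gt_sub_cube (x := δ s / 2) (by linarith)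
      have h3 : (δ s / 2) - (δ s / 2) ^ 3 / 6 ≥ 1 / 5 := by
        have : (δ s / 2) ^ 3 ≤ (δ s / 2) * (1 / 4) := by
          have h4 : (δ s / 2) ^ 2 ≤ 1 / 4 := by nlinarith
          have : (δ s / 2) ^ 3 = (δ s / 2) * (δ s / 2) ^ 2 := by ring
          rw [this]
          gcongr
        nlinarith
      linarith
    have hsp0 : 0 < sin (δ s / 2) := by linarith
    have e3 : D / (2 * sin (δ s / 2)) = (ω i - ω k) / (2 * sin (δ s / 2)) -
        κ / N * (∑ j, (1 + cos (Θ s j))) * cos ((Θ s i + Θ s k) / 2) := by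
      rw [e2]
      field_simp
    have e4 : (ω i - ω k) / (2 * sin (δ s / 2)) ≤ 5 * γ := by
      rw [div_le_iff₀ (by positivity)]
      have h1 := hωC i hi
      have h2 := hωC k hk
      nlinarith [h1.2, h2.1]
    have e5 := sum_est hN hκ hρ₂ hγ hrest hκ2 hγ2 hρ B C hBC hB hC hωB hωC hi hk s
      (hclose s ⟨hs0.le, hs.2⟩)
    have e6 : ∑ j, (-((1 + cos (Θ s j)) * cos ((Θ s i + Θ s k) / 2)) + gj' ω κ Θ B C i k j s) =
        - ((∑ j, (1 + cos (Θ s j))) * cos ((Θ s i + Θ s k) / 2)) + ∑ j, gj' ω κ Θ B C i k j s := by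
      rw [Finset.sum_add_distrib, Finset.sum_neg_distrib, Finset.sum_mul]
    rw [e6] at e5
    rw [e3]
    calc _ ≤ 5 * γ - κ / N * (∑ j, (1 + cos (Θ s j))) * cos ((Θ s i + Θ s k) / 2) +
          κ / N * ∑ j, gj' ω κ Θ B C i k j s := by linarith
      _ = 5 * γ + κ / N * (- ((∑ j, (1 + cos (Θ s j))) * cos ((Θ s i + Θ s k) / 2)) +
          ∑ j, gj' ω κ Θ B C i k j s) := by ring
      _ ≤ 0 := e5
  have hanti : AntitoneOn V (Icc T0 T) := by
    apply antitoneOn_of_deriv_nonpos (convex_Icc _ _) hVc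
    · rw [interior_Icc]
      intro s hs
      obtain ⟨d, _, hd⟩ := hVd s hs
      exact hd.differentiableAt.differentiableWithinAt
    · rw [interior_Icc]
      intro s hs
      obtain ⟨d, hd0, hd⟩ := hVd s hs
      rw [hd.deriv]
      exact hd0
  have hfin := hanti (left_mem_Icc.2 hT0le) (right_mem_Icc.2 hT0le) hT0le
  have hδT : δ T = 1 := hTe
  have hsumb : ∀ s, |κ / N * ∑ j, gj Θ B C i k j s| ≤ 2 * κ := by
    intro s
    rw [abs_mul, abs_of_nonneg (by positivity : 0 ≤ κ / N)]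
    calc κ / N * |∑ j, gj Θ B C i k j s| ≤ κ / N * ∑ j : Fin N, (2 : ℝ) := by
          gcongr
          exact (Finset.abs_sum_le_sum_abs _ _).trans
            (Finset.sum_le_sum fun j _ => gj_bound Θ B C i k j s)
      _ = 2 * κ := by
          simp
          field_simp
  have b1 := hsumb T
  have b2 := hsumb T0
  rw [abs_le] at b1 b2
  have hl := log_est
  have hl2 := Real.log_two_gt_d9
  simp only [hV] at hfin
  rw [hδT, hT0eq] at hfin
  have e8 : (1 / 2 / 4 : ℝ) = 1 / 8 := by norm_num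
  rw [e8] at hfin
  have : κ ≤ 1 / 96 := by linarith
  linarith [b1.1, b2.2]

end sol

/-- the property of Q1 -/
def HasProperty (ρ₁ ρ₂ γ κ : ℝ) : Prop :=
  ∀ N : ℕ, 1 ≤ N → ∀ ω : Fin N → ℝ, ∀ B C : Finset (Fin N), Disjoint B C →
    ρ₁ * N ≤ B.card → ρ₂ * N ≤ C.card →
    (∀ i ∈ B, ω i ∈ Icc (-γ) γ) → (∀ i ∈ C, ω i ∈ Icc (1 - γ) (1 + γ)) →
    ∃ Θ₀ : Fin N → ℝ, (∃ Θ, IsSol ω κ Θ ∧ Θ 0 = Θ₀) ∧
      ∀ Θ, IsSol ω κ Θ → Θ 0 = Θ₀ → Death Θ B ∧ Locking Θ C

theorem property_of {ρ₁ ρ₂ γ κ : ℝ} (hρ₂ : 0 < ρ₂) (hρ : ρ₂ ≤ 1)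
    (hrest : 16 * (1 - ρ₁ - ρ₂) ≤ ρ₂) (hκ : 0 < κ) (hκ2 : 96 * κ ≤ ρ₂) (hγ : 0 < γ)
    (hγ2 : 160 * γ ≤ κ * ρ₂) (hγ1 : γ < κ * ρ₁) : HasProperty ρ₁ ρ₂ γ κ := by
  intro N hN ω B C hBC hB hC hωB hωC
  refine ⟨0, exists_sol hN ω κ hκ.le 0, ?_⟩
  intro Θ h h0
  refine ⟨?_, ?_, ?_⟩
  · intro i hi
    exact ⟨π / 2, fun t ht => (death_bound hN hκ h h0 B hB hγ1 hωB t ht i hi).le⟩
  · have key : ∀ t ≥ 0, ∀ p : C × C, Θ t p.1 - Θ t p.2 < 1 := by
      apply first_exit (fun (p : C × C) t => Θ t p.1 - Θ t p.2)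
      · intro p
        exact (sol_cont h p.1).sub (sol_cont h p.2)
      · intro p
        simp [h0]
      · intro t ht hlt p hp
        exact no_exit hN hκ hρ₂ hγ hrest hκ2 hγ2 hρ h h0 B C hBC hB hC hωB hωC p.1.2 p.2.2 t ht
          (fun s hs a ha b hb => hlt s hs (⟨a, ha⟩, ⟨b, hb⟩)) hp
    intro i hi j hj
    refine ⟨1, fun t ht => ?_⟩
    have a1 := key t ht (⟨i, hi⟩, ⟨j, hj⟩)
    have a2 := key t ht (⟨j, hj⟩, ⟨i, hi⟩)
    rw [abs_le]; constructor <;> linarith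
  · intro i hi hlim
    have hgrow : ∀ t ≥ 0, t / 2 ≤ Θ t i := by
      have hmono : MonotoneOn (fun t => Θ t i - t / 2) (Ici 0) := by
        apply monotoneOn_of_deriv_nonneg (convex_Ici 0)
        · exact (sol_cont h i).sub (by fun_prop)
        · rw [interior_Ici]
          intro t ht
          have := (sol_deriv h i t ht).sub ((hasDerivAt_id t).div_const 2)
          exact this.differentiableAt.differentiableWithinAt
        · rw [interior_Ici]
          intro t ht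
          have := (sol_deriv h i t ht).sub ((hasDerivAt_id t).div_const 2)
          have e : deriv (fun t => Θ t i - t / 2) t = vf ω κ (Θ t) i - 1 / 2 := this.deriv
          rw [e]
          have h1 := vf_close (ω := ω) hN hκ.le (Θ t) i
          have h2 := hωC i hi
          rw [abs_le] at h1
          have : κ ≤ 1 / 96 := by linarith
          have : γ ≤ 1 / 96 := by nlinarith
          linarith [h1.1, h2.1]
      intro t ht
      have := hmono (mem_Ici.2 le_rfl) (mem_Ici.2 ht) ht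
      simp only [h0, Pi.zero_apply] at this
      linarith
    have h1 : ∀ᶠ t in atTop, (1 / 2 : ℝ) ≤ Θ t i / t := by
      filter_upwards [eventually_gt_atTop 0] with t ht
      rw [le_div_iff₀ ht]
      have := hgrow t ht.le
      linarith
    have := ge_of_tendsto hlim h1
    norm_num at this

/-- **Main result** (Q1 is true, with `ρ₁ + ρ₂ < 1`). For all `ρ₁ > 0`, `0 < ρ₂ ≤ 1` with
`16 (1 - ρ₁ - ρ₂) ≤ ρ₂` and all `κ, γ > 0` with `96 κ ≤ ρ₂`, `160 γ ≤ κ ρ₂`, `γ < κ ρ₁` the property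
of Q1 holds; in particular there are parameters in `(0, 1]` with `ρ₁ + ρ₂ < 1`. -/
theorem result :
    (∀ ρ₁ ρ₂ γ κ : ℝ, 0 < ρ₂ → ρ₂ ≤ 1 → 16 * (1 - ρ₁ - ρ₂) ≤ ρ₂ → 0 < κ → 96 * κ ≤ ρ₂ →
      0 < γ → 160 * γ ≤ κ * ρ₂ → γ < κ * ρ₁ → HasProperty ρ₁ ρ₂ γ κ) ∧
    ∃ ρ₁ ρ₂ γ κ : ℝ, ρ₁ ∈ Ioc 0 1 ∧ ρ₂ ∈ Ioc 0 1 ∧ γ ∈ Ioc 0 1 ∧ ρ₁ + ρ₂ < 1 ∧ 0 < κ ∧
      HasProperty ρ₁ ρ₂ γ κ := by
  refine ⟨fun ρ₁ ρ₂ γ κ a b c d e f g h => property_of a b c d e f g h, ?_⟩
  refine ⟨1 / 2, 48 / 100, 1 / 100000, 1 / 200, ⟨by norm_num, by norm_num⟩,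
    ⟨by norm_num, by norm_num⟩, ⟨by norm_num, by norm_num⟩, by norm_num, by norm_num, ?_⟩
  apply property_of <;> norm_num

end Pool.Agent.Results.MP_3a3e96_an.DeathAndLocking
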